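import Pool.Agent.K1H79.SX.Stm

set_option autoImplicit false

namespace Pool.Agent.K1H21.SX

open NumberField Ideal UniqueFactorizationMonoid Pool.Agent.K1H79.SX
open scoped Classical nonZeroDivisors

section grp

theorem card_ker_eq {G : Type} [Group G] [Finite G] (f : G →* G) :
    Nat.card f.ker = f.range.index := by
  have h1 := Subgroup.card_mul_index f.ker
  have h2 := Subgroup.card_mul_index f.range
  rw [Subgroup.index_ker] at h1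
  have h3 : 0 < Nat.card f.range := Nat.card_pos
  rw [← h2, mul_comm] at h1
  exact Nat.eq_of_mul_eq_mul_left h3 h1

theorem card_tors {G : Type} [CommGroup G] [Finite G] :
    Nat.card {a : G // a ^ 3 = 1} = (powMonoidHom 3 : G →* G).range.index := by
  rw [← card_ker_eq]
  rfl

theorem card_image_tors {A B : Type} [CommGroup A] [CommGroup B] [Finite A] (φ : A →* B) :
    Nat.card {d : B // d ^ 3 = 1 ∧ d ∈ φ.range} ≤ Nat.card {a : A // a ^ 3 = 1} := by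
  have hfin : Finite φ.range := Finite.of_surjective φ.rangeRestrict φ.rangeRestrict_surjective
  have h1 : Nat.card {d : B // d ^ 3 = 1 ∧ d ∈ φ.range} = Nat.card {d : φ.range // d ^ 3 = 1} := by
    refine Nat.card_congr ⟨fun d => ⟨⟨d.1, d.2.2⟩, Subtype.ext d.2.1⟩,
      fun d => ⟨d.1.1, congrArg Subtype.val d.2, d.1.2⟩, fun _ => rfl, fun _ => rfl⟩
  rw [h1, card_tors, card_tors]
  have hs : Function.Surjective φ.rangeRestrict := φ.rangeRestrict_surjective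
  rw [← Subgroup.index_comap_of_surjective _ hs]
  refine Nat.le_of_dvd (Nat.pos_of_ne_zero Subgroup.index_ne_zero_of_finite) (Subgroup.index_dvd_of_le ?_)
  rintro _ ⟨a, rfl⟩
  exact ⟨φ.rangeRestrict a, by simp⟩

end grp

section ded
variable {S : Type} [CommRing S] [IsDedekindDomain S]

/-- the multiplicity -/
noncomputable abbrev vv (P I : Ideal S) : ℕ := (normalizedFactors I).count P

theorem pow_dvd_iff {P I : Ideal S} (hP : P.IsPrime) (hP0 : P ≠ ⊥) (hI : I ≠ ⊥) (n : ℕ) :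
    P ^ n ∣ I ↔ n ≤ vv P I := by
  have hPirr := (Ideal.prime_of_isPrime hP0 hP).irreducible
  rw [dvd_iff_normalizedFactors_le_normalizedFactors (pow_ne_zero _ hP0) hI,
      normalizedFactors_pow, normalizedFactors_irreducible hPirr, normalize_eq,
      Multiset.nsmul_singleton, ← Multiset.le_count_iff_replicate_le]

theorem dvd_of_vv {I J : Ideal S} (hI : I ≠ ⊥) (hJ : J ≠ ⊥)
    (h : ∀ P : Ideal S, P.IsPrime → P ≠ ⊥ → vv P I ≤ vv P J) : I ∣ J := by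
  rw [dvd_iff_normalizedFactors_le_normalizedFactors hI hJ, Multiset.le_iff_count]
  intro P
  by_cases hP : P ∈ normalizedFactors I
  · have hp := prime_of_normalized_factor P hP
    exact h P (Ideal.isPrime_of_prime hp) hp.ne_zero
  · rw [Multiset.count_eq_zero_of_notMem hP]; exact Nat.zero_le _

theorem eq_of_vv {I J : Ideal S} (hI : I ≠ ⊥) (hJ : J ≠ ⊥)
    (h : ∀ P : Ideal S, P.IsPrime → P ≠ ⊥ → vv P I = vv P J) : I = J :=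
  le_antisymm (Ideal.le_of_dvd (dvd_of_vv hJ hI fun P h1 h2 => (h P h1 h2).ge))
    (Ideal.le_of_dvd (dvd_of_vv hI hJ fun P h1 h2 => (h P h1 h2).le))

theorem map_dvd_map (e : S ≃+* S) (A B : Ideal S) :
    A.map (e : S →+* S) ∣ B.map (e : S →+* S) ↔ A ∣ B := by
  rw [Ideal.dvd_iff_le, Ideal.dvd_iff_le]
  constructor
  · intro h
    have h1 := Ideal.comap_mono (f := (e : S →+* S)) h
    rwa [Ideal.comap_map_of_bijective (e : S →+* S) e.bijective,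
      Ideal.comap_map_of_bijective (e : S →+* S) e.bijective] at h1
  · intro h
    exact Ideal.map_mono h

theorem vv_map (e : S ≃+* S) {P Q I : Ideal S} (hP : P.IsPrime) (hP0 : P ≠ ⊥) (hQ : Q.IsPrime)
    (hQ0 : Q ≠ ⊥) (hI : I ≠ ⊥) (hPQ : P.map (e : S →+* S) = Q) (hinv : I.map (e : S →+* S) = I) :
    vv P I = vv Q I := by
  have h : ∀ n, P ^ n ∣ I ↔ Q ^ n ∣ I := by
    intro n
    rw [← map_dvd_map e, Ideal.map_pow, hPQ, hinv]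
  have h' : ∀ n, n ≤ vv P I ↔ n ≤ vv Q I := fun n => by
    rw [← pow_dvd_iff hP hP0 hI, ← pow_dvd_iff hQ hQ0 hI]; exact h n
  exact le_antisymm ((h' _).1 le_rfl) ((h' _).2 le_rfl)

end ded

section main
variable {F M : Type} [Field F] [NumberField F] [Field M] [NumberField M] [Algebra F M]

/-- invariant ideals -/
def Inv (F : Type) {M : Type} [Field F] [NumberField F] [Field M] [NumberField M] [Algebra F M]
    (I : Ideal (𝓞 M)) : Prop := ∀ σ : M ≃ₐ[F] M, I.map (sg σ : 𝓞 M →+* 𝓞 M) = I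

/-- the extension of an ideal -/
noncomputable abbrev ex (M : Type) {F : Type} [Field F] [NumberField F] [Field M] [NumberField M] [Algebra F M]
    (𝔟 : Ideal (𝓞 F)) : Ideal (𝓞 M) := 𝔟.map (algebraMap (𝓞 F) (𝓞 M))

theorem ex_inv (𝔟 : Ideal (𝓞 F)) : Inv F (ex M 𝔟) := by
  intro σ
  unfold ex
  rw [Ideal.map_map]
  congr 1
  ext x
  simp only [RingHom.comp_apply]
  show ((sg σ (algebraMap (𝓞 F) (𝓞 M) x) : 𝓞 M) : M) = ((algebraMap (𝓞 F) (𝓞 M) x : 𝓞 M) : M)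
  unfold sg
  rw [RingOfIntegers.mapRingEquiv_apply]
  have : ((algebraMap (𝓞 F) (𝓞 M) x : 𝓞 M) : M) = algebraMap F M (x : F) := rfl
  rw [this]
  exact σ.commutes _

theorem ex_ne_bot {𝔟 : Ideal (𝓞 F)} (h : 𝔟 ≠ ⊥) : ex M 𝔟 ≠ ⊥ := Ideal.map_ne_bot_of_ne_bot h

theorem trans_primes [IsGalois F M] {𝔭 : Ideal (𝓞 F)} {P Q : Ideal (𝓞 M)} (hP : P.IsPrime)
    (hQ : Q.IsPrime) (h1 : P.LiesOver 𝔭) (h2 : Q.LiesOver 𝔭) :
    ∃ σ : M ≃ₐ[F] M, Q.map (sg σ : 𝓞 M →+* 𝓞 M) = P := by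
  obtain ⟨σ, hσ⟩ := Ideal.exists_comap_galRestrict_eq (𝓞 F) F M (𝓞 M) (p := 𝔭) (P₁ := P) (P₂ := Q)
    ⟨hP, h1⟩ ⟨hQ, h2⟩
  refine ⟨σ, ?_⟩
  have e1 : (sg σ : 𝓞 M →+* 𝓞 M) = ((galRestrict (𝓞 F) F M (𝓞 M) σ : 𝓞 M ≃ₐ[𝓞 F] 𝓞 M) : 𝓞 M →+* 𝓞 M) := by
    ext x
    show ((sg σ x : 𝓞 M) : M) = algebraMap (𝓞 M) M (galRestrict (𝓞 F) F M (𝓞 M) σ x)
    rw [algebraMap_galRestrict_apply]
    rfl
  rw [e1, ← hσ]
  exact Ideal.map_comap_of_surjective _ (galRestrict (𝓞 F) F M (𝓞 M) σ).surjective P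

theorem vv_const [IsGalois F M] {𝔭 : Ideal (𝓞 F)} (h𝔭 : 𝔭 ≠ ⊥) {P Q I : Ideal (𝓞 M)} (hP : P.IsPrime)
    (hQ : Q.IsPrime) (h1 : P.LiesOver 𝔭) (h2 : Q.LiesOver 𝔭) (hI : I ≠ ⊥) (hinv : Inv F I) :
    vv P I = vv Q I := by
  obtain ⟨σ, hσ⟩ := trans_primes (F := F) hQ hP h2 h1
  have hP0 : P ≠ ⊥ := Ideal.ne_bot_of_liesOver_of_ne_bot h𝔭 P
  have hQ0 : Q ≠ ⊥ := Ideal.ne_bot_of_liesOver_of_ne_bot h𝔭 Q
  exact vv_map (sg σ) hP hP0 hQ hQ0 hI hσ (hinv σ)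

/-- reduced invariant ideals -/
def Red (F M : Type) [Field F] [NumberField F] [Field M] [NumberField M] [Algebra F M]
    (R : Ideal (𝓞 M)) : Prop :=
  R ≠ ⊥ ∧ Inv F R ∧ ∀ 𝔭 : Ideal (𝓞 F), 𝔭.IsPrime → 𝔭 ≠ ⊥ → ¬ ex M 𝔭 ∣ R

theorem lies_of_vv {𝔭 : Ideal (𝓞 F)} (hp : 𝔭.IsPrime) (h𝔭 : 𝔭 ≠ ⊥) {P : Ideal (𝓞 M)} (hP : P.IsPrime)
    (hP0 : P ≠ ⊥) (h : 0 < vv P (ex M 𝔭)) : P.LiesOver 𝔭 := by
  have h1 : P ^ 1 ∣ ex M 𝔭 := (pow_dvd_iff hP hP0 (ex_ne_bot h𝔭) 1).2 h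
  rw [pow_one, Ideal.dvd_iff_le, Ideal.map_le_iff_le_comap] at h1
  refine ⟨?_⟩
  have hm : 𝔭.IsMaximal := hp.isMaximal h𝔭
  have : (P.under (𝓞 F)).IsPrime := inferInstance
  exact hm.eq_of_le this.ne_top h1

theorem red_lt [IsGalois F M] {R : Ideal (𝓞 M)} (hR : Red F M R) {𝔭 : Ideal (𝓞 F)} (hp : 𝔭.IsPrime)
    (h𝔭 : 𝔭 ≠ ⊥) {P : Ideal (𝓞 M)} (hP : P.IsPrime) (hl : P.LiesOver 𝔭) : vv P R < vv P (ex M 𝔭) := by
  by_contra hcon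
  push Not at hcon
  refine hR.2.2 𝔭 hp h𝔭 (dvd_of_vv (ex_ne_bot h𝔭) hR.1 fun Q hQ hQ0 => ?_)
  rcases Nat.eq_zero_or_pos (vv Q (ex M 𝔭)) with h0 | hpos
  · rw [h0]; exact Nat.zero_le _
  · have hQl := lies_of_vv hp h𝔭 hQ hQ0 hpos
    rw [vv_const h𝔭 hQ hP hQl hl (ex_ne_bot h𝔭) (ex_inv 𝔭), vv_const h𝔭 hQ hP hQl hl hR.1 hR.2.1]
    exact hcon

theorem ex_le_finrank {𝔭 : Ideal (𝓞 F)} (hp : 𝔭.IsPrime)
    (h𝔭 : 𝔭 ≠ ⊥) {P : Ideal (𝓞 M)} (hP : P.IsPrime) (hl : P.LiesOver 𝔭) :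
    vv P (ex M 𝔭) ≤ Module.finrank F M := by
  have hm : 𝔭.IsMaximal := hp.isMaximal h𝔭
  have hP0 : P ≠ ⊥ := Ideal.ne_bot_of_liesOver_of_ne_bot h𝔭 P
  have : NoZeroSMulDivisors (𝓞 F) (𝓞 M) := ⟨fun {c x} h => by
    rcases smul_eq_zero.1 h with h | h
    · exact Or.inl h
    · exact Or.inr h⟩
  have h1 := Ideal.ramificationIdx_le_finrank (R := 𝓞 F) (𝓞 M) F M (p := 𝔭) P
  rwa [IsDedekindDomain.ramificationIdx'_eq_normalizedFactors_count (ex_ne_bot h𝔭) hP hP0] at h1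

theorem vv_zero_of_not_ram [IsGalois F M] {R : Ideal (𝓞 M)} (hR : Red F M R) {𝔭 : Ideal (𝓞 F)}
    (hp : 𝔭.IsPrime) (h𝔭 : 𝔭 ≠ ⊥) (hn : 𝔭 ∉ RamS F M) {P : Ideal (𝓞 M)} (hP : P.IsPrime)
    (hl : P.LiesOver 𝔭) : vv P R = 0 := by
  have hP0 : P ≠ ⊥ := Ideal.ne_bot_of_liesOver_of_ne_bot h𝔭 P
  have hsq : Squarefree (ex M 𝔭) := by
    by_contra h
    exact hn ⟨hp, h𝔭, h⟩
  have h1 := red_lt hR hp h𝔭 hP hl
  have h2 : ¬ 2 ≤ vv P (ex M 𝔭) := by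
    rw [← pow_dvd_iff hP hP0 (ex_ne_bot h𝔭), pow_two]
    intro h
    exact hP.ne_top (Ideal.isUnit_iff.1 (hsq P h))
  omega

theorem card_red [IsGalois F M] (hfin : (RamS F M).Finite) :
    Nat.card {R : Ideal (𝓞 M) // Red F M R} ≤ Module.finrank F M ^ Nat.card (RamS F M) ∧
    Finite {R : Ideal (𝓞 M) // Red F M R} := by
  have hF : Finite (RamS F M) := hfin
  have hex : ∀ 𝔭 : RamS F M, ∃ P : Ideal (𝓞 M), P.IsPrime ∧ P.LiesOver 𝔭.1 := by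
    intro 𝔭
    have := 𝔭.2.1
    obtain ⟨P⟩ := (inferInstance : Nonempty (primesOver 𝔭.1 (𝓞 M)))
    exact ⟨P.1, P.2.1, P.2.2⟩
  choose PP hPP1 hPP2 using hex
  let f : {R : Ideal (𝓞 M) // Red F M R} → (RamS F M → Fin (Module.finrank F M)) :=
    fun R 𝔭 => ⟨vv (PP 𝔭) R.1, lt_of_lt_of_le (red_lt R.2 𝔭.2.1 𝔭.2.2.1 (hPP1 𝔭) (hPP2 𝔭))
      (ex_le_finrank 𝔭.2.1 𝔭.2.2.1 (hPP1 𝔭) (hPP2 𝔭))⟩
  have hf : Function.Injective f := by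
    intro R R' h
    refine Subtype.ext (eq_of_vv R.2.1 R'.2.1 fun P hP hP0 => ?_)
    set 𝔭 : Ideal (𝓞 F) := P.under (𝓞 F) with h𝔭
    have hl : P.LiesOver 𝔭 := ⟨rfl⟩
    have hp : 𝔭.IsPrime := inferInstance
    have hp0 : 𝔭 ≠ ⊥ := by
      intro h0
      exact hP0 (Ideal.eq_bot_of_comap_eq_bot h0)
    by_cases hr : 𝔭 ∈ RamS F M
    · have h1 := congrFun h ⟨𝔭, hr⟩
      have h2 : vv (PP ⟨𝔭, hr⟩) R.1 = vv (PP ⟨𝔭, hr⟩) R'.1 := congrArg Fin.val h1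
      rw [vv_const hp0 hP (hPP1 ⟨𝔭, hr⟩) hl (hPP2 ⟨𝔭, hr⟩) R.2.1 R.2.2.1,
        vv_const hp0 hP (hPP1 ⟨𝔭, hr⟩) hl (hPP2 ⟨𝔭, hr⟩) R'.2.1 R'.2.2.1]
      exact h2
    · rw [vv_zero_of_not_ram R.2 hp hp0 hr hP hl, vv_zero_of_not_ram R'.2 hp hp0 hr hP hl]
  refine ⟨?_, Finite.of_injective f hf⟩
  refine (Nat.card_le_card_of_injective f hf).trans ?_
  rw [Nat.card_fun, Nat.card_eq_fintype_card, Fintype.card_fin]

theorem inv_of_mul {I J K : Ideal (𝓞 M)} (hI : Inv F I) (hJ : Inv F J) (hJ0 : J ≠ ⊥) (h : I = J * K) :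
    Inv F K := by
  intro σ
  have h1 := hI σ
  rw [h, Ideal.map_mul, hJ σ] at h1
  exact mul_left_cancel₀ hJ0 h1

theorem decomp (I : Ideal (𝓞 M)) : I ≠ ⊥ → Inv F I →
    ∃ (𝔟 : Ideal (𝓞 F)) (R : Ideal (𝓞 M)), 𝔟 ≠ ⊥ ∧ Red F M R ∧ I = ex M 𝔟 * R := by
  refine wellFounded_dvdNotUnit.induction (C := fun I => I ≠ ⊥ → Inv F I →
    ∃ (𝔟 : Ideal (𝓞 F)) (R : Ideal (𝓞 M)), 𝔟 ≠ ⊥ ∧ Red F M R ∧ I = ex M 𝔟 * R) I ?_
  intro I ih hI hinv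
  by_cases hred : Red F M I
  · refine ⟨⊤, I, top_ne_bot, hred, ?_⟩
    unfold ex
    rw [Ideal.map_top, ← Ideal.one_eq_top, one_mul]
  · have : ∃ 𝔭 : Ideal (𝓞 F), 𝔭.IsPrime ∧ 𝔭 ≠ ⊥ ∧ ex M 𝔭 ∣ I := by
      by_contra hc
      push Not at hc
      exact hred ⟨hI, hinv, fun 𝔭 h1 h2 => hc 𝔭 h1 h2⟩
    obtain ⟨𝔭, hp, h𝔭, J, hJ⟩ := this
    have hJ0 : J ≠ ⊥ := by
      rintro rfl
      apply hI
      rw [hJ]; exact Ideal.mul_bot _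
    have hnu : ¬ IsUnit (ex M 𝔭) := by
      intro hu
      rw [Ideal.isUnit_iff] at hu
      obtain ⟨P⟩ := (inferInstance : Nonempty (primesOver 𝔭 (𝓞 M)))
      have hPl : P.1.LiesOver 𝔭 := P.2.2
      have h1 : ex M 𝔭 ≤ P.1 := Ideal.map_le_iff_le_comap.2 (le_of_eq hPl.over)
      rw [hu] at h1
      exact P.2.1.ne_top (top_le_iff.1 h1)
    have hJinv : Inv F J := inv_of_mul hinv (ex_inv 𝔭) (ex_ne_bot h𝔭) hJ
    obtain ⟨𝔟, R, h1, h2, h3⟩ := ih J ⟨hJ0, ex M 𝔭, hnu, by rw [hJ, mul_comm]⟩ hJ0 hJinv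
    refine ⟨𝔭 * 𝔟, R, mul_ne_zero h𝔭 h1, h2, ?_⟩
    unfold ex at *
    rw [Ideal.map_mul, mul_assoc, ← h3, hJ]

end main

theorem t_INV : S_INV := by
  intro F M _ _ _ _ _ _ hfin
  obtain ⟨hc, hfr⟩ := card_red (F := F) (M := M) hfin
  set φ : ClassGroup (𝓞 F) →* ClassGroup (𝓞 M) := ClassGroup.extendedHom (𝓞 F) (𝓞 M) with hφ
  have hdec : ∀ c : {c : ClassGroup (𝓞 M) // c ^ 3 = 1 ∧ InvI F M c},
      ∃ (𝔟 : (Ideal (𝓞 F))⁰) (R : {R : Ideal (𝓞 M) // Red F M R}),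
        c.1 = φ (ClassGroup.mk0 𝔟) * ClassGroup.mk0 ⟨R.1, mem_nonZeroDivisors_of_ne_zero R.2.1⟩ := by
    rintro ⟨c, _, I, hI, hinv⟩
    obtain ⟨𝔟, R, h1, h2, h3⟩ := decomp (F := F) (I : Ideal (𝓞 M)) (nonZeroDivisors.coe_ne_zero I) hinv
    refine ⟨⟨𝔟, mem_nonZeroDivisors_of_ne_zero h1⟩, ⟨R, h2⟩, ?_⟩
    rw [hφ, ClassGroup.extendedHom_mk0, ← map_mul]
    refine hI.symm.trans ?_
    congr 1
    exact Subtype.ext h3
  choose bb RR hb using hdec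
  let base : {c : ClassGroup (𝓞 M) // c ^ 3 = 1 ∧ InvI F M c} →
      {c : ClassGroup (𝓞 M) // c ^ 3 = 1 ∧ InvI F M c} := fun c =>
    Function.surjInv Set.rangeFactorization_surjective (Set.rangeFactorization RR c)
  have hbase : ∀ c, RR (base c) = RR c := fun c => by
    have := Function.surjInv_eq (Set.rangeFactorization_surjective (f := RR)) (Set.rangeFactorization RR c)
    exact congrArg Subtype.val this
  have hbase2 : ∀ c c', RR c = RR c' → base c = base c' := fun c c' h => by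
    have : Set.rangeFactorization RR c = Set.rangeFactorization RR c' := Subtype.ext h
    simp only [base, this]
  let g : {c : ClassGroup (𝓞 M) // c ^ 3 = 1 ∧ InvI F M c} →
      {R : Ideal (𝓞 M) // Red F M R} × {d : ClassGroup (𝓞 M) // d ^ 3 = 1 ∧ d ∈ φ.range} :=
    fun c => (RR c, ⟨c.1 / (base c).1, by rw [div_pow, c.2.1, (base c).2.1, div_one], by
      rw [hb c, hb (base c), hbase c, mul_div_mul_right_eq_div, ← map_div]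
      exact ⟨_, rfl⟩⟩)
  have hg : Function.Injective g := by
    intro c c' h
    have h1 : RR c = RR c' := congrArg Prod.fst h
    have h2 : c.1 / (base c).1 = c'.1 / (base c').1 := congrArg (fun x => x.2.1) h
    rw [hbase2 c c' h1] at h2
    exact Subtype.ext (div_left_injective h2)
  have hE : Finite {d : ClassGroup (𝓞 M) // d ^ 3 = 1 ∧ d ∈ φ.range} := inferInstance
  calc Nat.card {c : ClassGroup (𝓞 M) // c ^ 3 = 1 ∧ InvI F M c}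
      ≤ Nat.card ({R : Ideal (𝓞 M) // Red F M R} × {d : ClassGroup (𝓞 M) // d ^ 3 = 1 ∧ d ∈ φ.range}) :=
        Nat.card_le_card_of_injective g hg
    _ = Nat.card {R : Ideal (𝓞 M) // Red F M R} *
          Nat.card {d : ClassGroup (𝓞 M) // d ^ 3 = 1 ∧ d ∈ φ.range} := Nat.card_prod _ _
    _ ≤ _ := Nat.mul_le_mul hc (card_image_tors φ)

end Pool.Agent.K1H21.SX
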