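import Pool.Agent.K1H21.SX.INV

set_option autoImplicit false

namespace Pool.Agent.K1H21.SX

open NumberField Ideal UniqueFactorizationMonoid Pool.Agent.K1H79.SX
open scoped Classical nonZeroDivisors Pointwise

section base
variable {F M : Type} [Field F] [NumberField F] [Field M] [NumberField M] [Algebra F M]

theorem ram_eq_vv {𝔭 : Ideal (𝓞 F)} (h𝔭 : 𝔭 ≠ ⊥) {P : Ideal (𝓞 M)} (hl : P.LiesOver 𝔭) :
    P.ramificationIdx (𝓞 F) = vv P (ex M 𝔭) :=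
  IsDedekindDomain.ramificationIdx_eq_normalizedFactors_count 𝔭 P (ex_ne_bot h𝔭)

theorem sqfree_of_ram {𝔭 : Ideal (𝓞 F)} (hp : 𝔭.IsPrime) (h𝔭 : 𝔭 ≠ ⊥)
    (h : ∀ P : Ideal (𝓞 M), P.IsPrime → P.LiesOver 𝔭 → P.ramificationIdx (𝓞 F) ≤ 1) :
    Squarefree (ex M 𝔭) := by
  rw [UniqueFactorizationMonoid.squarefree_iff_nodup_normalizedFactors (ex_ne_bot h𝔭),
    Multiset.nodup_iff_count_le_one]
  intro P
  by_cases hP : P ∈ normalizedFactors (ex M 𝔭)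
  · have hpr := prime_of_normalized_factor P hP
    have hP1 : P.IsPrime := Ideal.isPrime_of_prime hpr
    have hl : P.LiesOver 𝔭 := lies_of_vv hp h𝔭 hP1 hpr.ne_zero (Multiset.count_pos.2 hP)
    have := h P hP1 hl
    rwa [ram_eq_vv h𝔭 hl] at this
  · rw [Multiset.count_eq_zero_of_notMem hP]; exact Nat.zero_le _

theorem ram_le_one {𝔭 : Ideal (𝓞 F)} (h𝔭 : 𝔭 ≠ ⊥) (hs : Squarefree (ex M 𝔭)) {P : Ideal (𝓞 M)}
    (hl : P.LiesOver 𝔭) : P.ramificationIdx (𝓞 F) ≤ 1 := by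
  rw [ram_eq_vv h𝔭 hl]
  exact (Multiset.nodup_iff_count_le_one.1
    ((UniqueFactorizationMonoid.squarefree_iff_nodup_normalizedFactors (ex_ne_bot h𝔭)).1 hs)) P

theorem gal_smul_coe (g : M ≃ₐ[F] M) (x : 𝓞 M) : ((g • x : 𝓞 M) : M) = g (x : M) := rfl

theorem card_inertia [IsGalois F M] {𝔭 : Ideal (𝓞 F)} (hp : 𝔭.IsPrime) {P : Ideal (𝓞 M)}
    (hP : P.IsPrime) (hl : P.LiesOver 𝔭) :
    Nat.card (P.inertia (M ≃ₐ[F] M)) = P.ramificationIdx (𝓞 F) := by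
  rw [card_inertia_eq_ramificationIdxIn (G := M ≃ₐ[F] M) 𝔭 P,
    ramificationIdxIn_eq_ramificationIdx 𝔭 P (M ≃ₐ[F] M)]

end base

section cfg
variable {F L F' M : Type} [Field F] [NumberField F] [Field L] [NumberField L] [Field F']
    [NumberField F'] [Field M] [NumberField M] [Algebra F L] [Algebra F F'] [Algebra F M] [Algebra L M]
    [Algebra F' M]

theorem incl1 (h : IsS3 F L F' M) : RamS F M ⊆ RamS F L := by
  obtain ⟨t1, t2, hg, d1, d2, d3, d4, hrel⟩ := h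
  have hgL : IsGalois L M := IsGalois.tower_top_of_isGalois F L M
  have hgF' : IsGalois F' M := IsGalois.tower_top_of_isGalois F F' M
  have tO : IsScalarTower (𝓞 F) (𝓞 L) (𝓞 M) := inferInstance
  have cH : Nat.card (M ≃ₐ[L] M) = 2 := by rw [IsGalois.card_aut_eq_finrank, d3]
  have cS : Nat.card (M ≃ₐ[F'] M) = 3 := by rw [IsGalois.card_aut_eq_finrank, d4]
  have hHn : Nontrivial (M ≃ₐ[L] M) := Finite.one_lt_card_iff_nontrivial.1 (by rw [cH]; norm_num)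
  have hSn : Nontrivial (M ≃ₐ[F'] M) := Finite.one_lt_card_iff_nontrivial.1 (by rw [cS]; norm_num)
  obtain ⟨τ, hτ⟩ := exists_ne (1 : M ≃ₐ[L] M)
  obtain ⟨σ, hσ⟩ := exists_ne (1 : M ≃ₐ[F'] M)
  have hτ2 : ∀ x, τ (τ x) = x := by
    intro x
    have h1 : τ ^ 2 = 1 := by rw [← cH]; exact pow_card_eq_one'
    have h2 := congrArg (fun g : M ≃ₐ[L] M => g x) h1
    simpa [pow_two] using h2
  have hσ3 : ∀ x, σ (σ (σ x)) = x := by
    intro x
    have h1 : σ ^ 3 = 1 := by rw [← cS]; exact pow_card_eq_one'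
    have h2 := congrArg (fun g : M ≃ₐ[F'] M => g x) h1
    simpa [pow_succ] using h2
  set τ' : M ≃ₐ[F] M := τ.restrictScalars F with hτ'
  set σ' : M ≃ₐ[F] M := σ.restrictScalars F with hσ'
  have hτ'a : ∀ x, τ' x = τ x := fun x => rfl
  have hσ'a : ∀ x, σ' x = σ x := fun x => rfl
  have hτ'1 : τ' ≠ 1 := by
    intro h
    apply hτ
    ext x
    exact congrArg (fun g : M ≃ₐ[F] M => g x) h
  intro 𝔭 h𝔭
  by_contra hn
  have hp : 𝔭.IsPrime := h𝔭.1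
  have hs : Squarefree (ex L 𝔭) := by_contra fun hc => hn ⟨h𝔭.1, h𝔭.2.1, hc⟩
  apply h𝔭.2.2
  apply sqfree_of_ram h𝔭.1 h𝔭.2.1
  intro P hP hl
  by_contra hgt
  push Not at hgt
  -- the inertia groups of all primes above 𝔭
  have key : ∀ P' : Ideal (𝓞 M), P'.IsPrime → P'.LiesOver 𝔭 →
      Nat.card (P'.inertia (M ≃ₐ[F] M)) = 2 ∧ τ' ∈ P'.inertia (M ≃ₐ[F] M) := by
    intro P' hP' hl'
    have e1 : P'.ramificationIdx (𝓞 F) = P.ramificationIdx (𝓞 F) :=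
      ramificationIdx_eq_of_isGaloisGroup 𝔭 P' P (M ≃ₐ[F] M)
    set Q : Ideal (𝓞 L) := P'.under (𝓞 L) with hQ
    have hPQ : P'.LiesOver Q := ⟨rfl⟩
    have hQl : Q.LiesOver 𝔭 := Ideal.LiesOver.tower_bot P' Q 𝔭
    have hQp : Q.IsPrime := inferInstance
    have e2 : P'.ramificationIdx (𝓞 F) = Q.ramificationIdx (𝓞 F) * P'.ramificationIdx (𝓞 L) :=
      ramificationIdx_tower (R := 𝓞 F) (S := 𝓞 L) (T := 𝓞 M) Q P'
    have e3 := ram_le_one h𝔭.2.1 hs hQl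
    have e4 : Nat.card (P'.inertia (M ≃ₐ[L] M)) = P'.ramificationIdx (𝓞 L) := card_inertia hQp hP' hPQ
    have e5 : Nat.card (P'.inertia (M ≃ₐ[L] M)) ≤ 2 := by
      rw [← cH]; exact Subgroup.card_le_card_group _
    have e6 : 2 ≤ Q.ramificationIdx (𝓞 F) * P'.ramificationIdx (𝓞 L) := by rw [← e2, e1]; exact hgt
    have e7 : Q.ramificationIdx (𝓞 F) = 1 := by
      rcases Nat.eq_zero_or_pos (Q.ramificationIdx (𝓞 F)) with h0 | h0
      · rw [h0, zero_mul] at e6; omega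
      · omega
    rw [e7, one_mul] at e6 e2
    have e8 : Nat.card (P'.inertia (M ≃ₐ[L] M)) = 2 := by omega
    refine ⟨by rw [card_inertia hp hP' hl', e2, ← e4, e8], ?_⟩
    have e9 : P'.inertia (M ≃ₐ[L] M) = ⊤ := by
      apply Subgroup.eq_top_of_card_eq
      rw [e8, cH]
    have e10 : τ ∈ P'.inertia (M ≃ₐ[L] M) := by rw [e9]; trivial
    intro x
    exact e10 x
  -- the conjugate
  have hmem : σ' * τ' * σ'⁻¹ ∈ P.inertia (M ≃ₐ[F] M) := by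
    have h1 := (key (σ'⁻¹ • P) inferInstance inferInstance).2
    intro x
    have h2 : (τ' • σ'⁻¹ • x - σ'⁻¹ • x) ∈ σ'⁻¹ • P := h1 (σ'⁻¹ • x)
    rw [Ideal.mem_pointwise_smul_iff_inv_smul_mem] at h2
    rw [inv_inv, smul_sub, smul_inv_smul] at h2
    show (σ' * τ' * σ'⁻¹) • x - x ∈ P
    rw [mul_smul, mul_smul]
    exact h2
  have hτm := (key P hP hl).2
  have hc := (key P hP hl).1
  have hor : σ' * τ' * σ'⁻¹ = 1 ∨ σ' * τ' * σ'⁻¹ = τ' := by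
    by_contra hcon
    push Not at hcon
    let f : Fin 3 → P.inertia (M ≃ₐ[F] M) := ![1, ⟨τ', hτm⟩, ⟨_, hmem⟩]
    have hf : Function.Injective f := by
      intro i j hij
      fin_cases i <;> fin_cases j <;> simp [f, Subtype.ext_iff] at hij ⊢
      · exact hτ'1 hij.symm
      · exact hcon.1 (by rw [← hij]) 
      · exact hτ'1 hij
      · exact hcon.2 hij.symm
      · exact hτ'1 hij
      · exact hcon.2 hij
    have := Nat.card_le_card_of_injective f hf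
    rw [hc, Nat.card_eq_fintype_card, Fintype.card_fin] at this
    omega
  rcases hor with h1 | h1
  · apply hτ'1
    rwa [conj_eq_one_iff] at h1
  · apply hσ
    have h2 : σ' * τ' = τ' * σ' := mul_inv_eq_iff_eq_mul.1 h1
    have h3 : ∀ x, σ (τ x) = τ (σ x) := fun x => congrArg (fun g : M ≃ₐ[F] M => g x) h2
    have h4 : ∀ x, σ.symm x = σ x := by
      intro x
      rw [← hrel σ τ hτ x, h3, hτ2]
    have h5 : ∀ x, σ (σ x) = x := fun x => by rw [← h4 (σ x)]; simp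
    ext x
    have h6 := hσ3 x
    rw [h5] at h6
    simpa using h6

theorem ex_ex (𝔭 : Ideal (𝓞 F)) [IsScalarTower F F' M] : ex M (ex F' 𝔭) = ex M 𝔭 := by
  unfold ex
  rw [Ideal.map_map, ← IsScalarTower.algebraMap_eq]

theorem ex_isUnit {K N : Type} [Field K] [NumberField K] [Field N] [NumberField N] [Algebra K N]
    {I : Ideal (𝓞 K)} (h : IsUnit (ex N I)) : IsUnit I := by
  by_contra hI
  rw [Ideal.isUnit_iff] at hI h
  obtain ⟨m, hm, hIm⟩ := Ideal.exists_le_maximal I hI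
  have hmp := hm.isPrime
  obtain ⟨P⟩ := (inferInstance : Nonempty (primesOver m (𝓞 N)))
  have hPl : P.1.LiesOver m := P.2.2
  have h1 : ex N I ≤ P.1 := Ideal.map_le_iff_le_comap.2 (hIm.trans (le_of_eq hPl.over))
  rw [h] at h1
  exact P.2.1.ne_top (top_le_iff.1 h1)

theorem not_sqfree_ex {K N : Type} [Field K] [NumberField K] [Field N] [NumberField N] [Algebra K N]
    {I : Ideal (𝓞 K)} (h : Squarefree (ex N I)) : Squarefree I := by
  intro A hA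
  obtain ⟨B, hB⟩ := hA
  apply ex_isUnit (N := N)
  apply h
  refine ⟨ex N B, ?_⟩
  unfold ex
  rw [hB, Ideal.map_mul, Ideal.map_mul]

theorem t_RAMCof (hR : S_RAM) : S_RAMC := by
  intro F L F' M _ _ _ _ _ _ _ _ _ _ _ _ _ h
  have h1 := incl1 h
  obtain ⟨t1, t2, hg, d1, d2, d3, d4, hrel⟩ := h
  have h2 : RamS F F' ⊆ RamS F M := by
    rintro 𝔭 ⟨a, b, c⟩
    refine ⟨a, b, fun hs => c ?_⟩
    apply not_sqfree_ex (N := M)
    rw [ex_ex]
    exact hs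
  refine ⟨h1, h2.trans h1, ?_⟩
  have hfin : Finite (RamS F L) := (hR F L).1
  have hfin' : Fintype (RamS F L) := Fintype.ofFinite _
  have hm : ∀ 𝔮 : RamS F' M, (𝔮.1.under (𝓞 F)) ∈ RamS F L := by
    rintro ⟨𝔮, a, b, c⟩
    apply h1
    have b' : 𝔮.under (𝓞 F) ≠ ⊥ := fun h0 => b (Ideal.eq_bot_of_comap_eq_bot h0)
    refine ⟨inferInstance, b', fun hs => c ?_⟩
    have h3 : ex M (ex F' (𝔮.under (𝓞 F))) = ex M (𝔮.under (𝓞 F)) := ex_ex _
    have h4 : ex F' (𝔮.under (𝓞 F)) ≤ 𝔮 := Ideal.map_comap_le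
    have h5 : 𝔮.map (algebraMap (𝓞 F') (𝓞 M)) ∣ ex M (𝔮.under (𝓞 F)) := by
      rw [← h3, Ideal.dvd_iff_le]
      exact Ideal.map_mono h4
    exact hs.squarefree_of_dvd h5
  have hcard : ∀ 𝔭 : RamS F L, Nat.card (primesOver 𝔭.1 (𝓞 F')) ≤ 2 ∧ Finite (primesOver 𝔭.1 (𝓞 F')) := by
    rintro ⟨𝔭, a, b, c⟩
    have hmx : 𝔭.IsMaximal := a.isMaximal b
    have : NoZeroSMulDivisors (𝓞 F) (𝓞 F') := ⟨fun {c x} h => by
      rcases smul_eq_zero.1 h with h | h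
      · exact Or.inl h
      · exact Or.inr h⟩
    have h3 := Ideal.card_primesOverFinset_le_finrank (R := 𝓞 F) (𝓞 F') F F' b
    rw [d2] at h3
    have h4 : primesOver 𝔭 (𝓞 F') = ↑(IsDedekindDomain.primesOverFinset 𝔭 (𝓞 F')) :=
      (IsDedekindDomain.coe_primesOverFinset b (𝓞 F')).symm
    have h5 : Nat.card (primesOver 𝔭 (𝓞 F')) = (IsDedekindDomain.primesOverFinset 𝔭 (𝓞 F')).card := by
      rw [Nat.card_coe_set_eq, h4, Set.ncard_coe_finset]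
    refine ⟨by rw [h5]; exact h3, ?_⟩
    show Finite (primesOver 𝔭 (𝓞 F'))
    rw [h4]; infer_instance
  have hfin2 : ∀ 𝔭 : RamS F L, Finite (primesOver 𝔭.1 (𝓞 F')) := fun 𝔭 => (hcard 𝔭).2
  let g : RamS F' M → Σ 𝔭 : RamS F L, primesOver 𝔭.1 (𝓞 F') :=
    fun 𝔮 => ⟨⟨𝔮.1.under (𝓞 F), hm 𝔮⟩, ⟨𝔮.1, 𝔮.2.1, ⟨rfl⟩⟩⟩
  have hg : Function.Injective g := by
    intro 𝔮 𝔮' hq
    have h3 : (g 𝔮).2.1 = (g 𝔮').2.1 := by rw [hq]
    exact Subtype.ext h3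
  calc Nat.card (RamS F' M) ≤ Nat.card (Σ 𝔭 : RamS F L, primesOver 𝔭.1 (𝓞 F')) :=
        Nat.card_le_card_of_injective g hg
    _ = ∑ 𝔭 : RamS F L, Nat.card (primesOver 𝔭.1 (𝓞 F')) := Nat.card_sigma
    _ ≤ ∑ 𝔭 : RamS F L, 2 := Finset.sum_le_sum fun 𝔭 _ => (hcard 𝔭).1
    _ = 2 * Nat.card (RamS F L) := by
        rw [Finset.sum_const, smul_eq_mul, mul_comm, Finset.card_univ, Nat.card_eq_fintype_card]

end cfg

end Pool.Agent.K1H21.SX
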